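import Mathlib
import Pool.Agent.Run7.h964.Alt5

set_option autoImplicit false

/-!
# The region `0 < |a| < 1`, `c ≥ -(5/4)(1-a²)²`: every orbit converges to a fixed point, to a
2-cycle or to infinity
-/

namespace Pool.Agent.Results.MP_4785e6_an.PeriodTwoRegion

open Run7.h964 MeasureTheory Filter Topology Set

theorem result (a c : ℝ) (ha : a ≠ 0) (ha1 : |a| < 1) (hc : -(5 / 4) * (1 - a ^ 2) ^ 2 ≤ c)
    (z : ℝ × ℝ) :
    (Tendsto (fun n => ‖(henon a c)^[n] z‖) atTop atTop ∨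
      ∃ P : ℝ × ℝ, henon a c (henon a c P) = P ∧
        Tendsto (fun k => (henon a c)^[2 * k] z) atTop (𝓝 P) ∧
        Tendsto (fun k => (henon a c)^[2 * k + 1] z) atTop (𝓝 (henon a c P))) ∧
    ¬ NonStat (henon a c) z :=
  ⟨region_trichotomy' a c ha ha1 hc z, region_statistical' a c ha ha1 hc z⟩

end Pool.Agent.Results.MP_4785e6_an.PeriodTwoRegion
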