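import Mathlib
import Pool.Agent.Run7.h964.Dens2

set_option autoImplicit false

/-!
# The lagged sums along a non-statistical orbit have both signs with positive upper density
-/

namespace Pool.Agent.Results.MP_4785e6_an.SignDensity

open Run7.h964 MeasureTheory Filter Topology Set

lemma cnt_eq (S : Set ℕ) (n : ℕ) :
    (Set.ncard {k | k < n ∧ k ∈ S} : ℝ) =
      ∑ k ∈ Finset.range n, S.indicator (fun _ => (1 : ℝ)) k := by
  classical
  have h1 : {k | k < n ∧ k ∈ S} = ((Finset.range n).filter (fun k => k ∈ S) : Set ℕ) := by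
    ext k; simp
  rw [h1, Set.ncard_coe_finset, Finset.card_filter]
  push_cast
  apply Finset.sum_congr rfl
  intro k _
  by_cases h : k ∈ S
  · rw [indicator_of_mem h, if_pos h]
  · rw [indicator_of_notMem h, if_neg h]

lemma pos_of_not_avg0 {S : Set ℕ} (h : ¬ Avg0 (S.indicator (fun _ => (1 : ℝ)))) :
    ∃ δ : ℝ, 0 < δ ∧ ∃ᶠ n : ℕ in atTop, δ * n ≤ Set.ncard {k | k < n ∧ k ∈ S} := by
  by_contra hcon
  push Not at hcon
  apply h
  show Tendsto _ _ _
  rw [tendsto_order]
  constructor
  · intro y hy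
    refine Eventually.of_forall fun n => lt_of_lt_of_le hy ?_
    exact div_nonneg (Finset.sum_nonneg fun k _ => indicator_nonneg (fun _ _ => zero_le_one) _)
      (Nat.cast_nonneg n)
  · intro y hy
    have h1 := hcon y hy
    filter_upwards [h1, eventually_gt_atTop 0] with n hn hn0
    have hn0' : (0 : ℝ) < n := by exact_mod_cast hn0
    rw [div_lt_iff₀ hn0', ← cnt_eq]
    exact not_le.1 (fun h => absurd h (by simpa using hn))

lemma root_exists {b c : ℝ} (hb1 : b < 1) (hc : c < 0) :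
    ∃ T α : ℝ, 0 < T ∧ α < 0 ∧ ∀ v : ℝ, v = v ^ 2 + c + b * v → (v = T ∨ v = α) := by
  have hdisc : (1 - b) ^ 2 < (1 - b) ^ 2 - 4 * c := by linarith
  have hs2 := Real.sq_sqrt (show 0 ≤ (1 - b) ^ 2 - 4 * c by nlinarith [sq_nonneg (1 - b)])
  have hs : 1 - b < Real.sqrt ((1 - b) ^ 2 - 4 * c) := Real.lt_sqrt_of_sq_lt hdisc
  refine ⟨((1 - b) + Real.sqrt ((1 - b) ^ 2 - 4 * c)) / 2,
    ((1 - b) - Real.sqrt ((1 - b) ^ 2 - 4 * c)) / 2, by linarith, by linarith, fun v hv => ?_⟩
  have h1 : (v - ((1 - b) + Real.sqrt ((1 - b) ^ 2 - 4 * c)) / 2) *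
      (v - ((1 - b) - Real.sqrt ((1 - b) ^ 2 - 4 * c)) / 2) = 0 := by
    linear_combination hs2 * (-1/4) - hv
  rcases mul_eq_zero.1 h1 with h | h
  · left; linarith
  · right; linarith

lemma periodic_nonneg {b c M T α : ℝ} (hb : 0 < b) (hb1 : b < 1) {p : ℕ} (hα : α < 0)
    (hroot : ∀ v : ℝ, v = v ^ 2 + c + b * v → (v = T ∨ v = α)) (X : ℕ → ℝ)
    (hX : ∀ n, X (n + 2) = X (n + 1) ^ 2 + c + b * X n) (hM : ∀ n, |X n| ≤ M)
    (hper : ∀ n, X (n + p) = X n) (hp : 0 < p) (hnn : ∀ n, 0 ≤ X n) : X 0 = T := by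
  have hper' : ∀ k n, X (n + k * p) = X n := by
    intro k n
    induction k with
    | zero => simp
    | succ k ih =>
      have e : n + (k + 1) * p = (n + k * p) + p := by ring
      rw [e, hper, ih]
  obtain ⟨l, hl⟩ := conv_of_nonneg hb.le hX hM one_pos (Or.inr hb1) (N := 0)
    (fun n _ => add_nonneg (hnn _) (hnn _)) 0
  have hl' : ∀ n, X n = l := by
    intro n
    have h1 : Tendsto (fun k : ℕ => n + k * p) atTop atTop :=
      tendsto_atTop_mono (fun k => by
        show k ≤ n + k * p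
        nlinarith) tendsto_id
    have h2 := hl.comp h1
    refine tendsto_nhds_unique (tendsto_const_nhds (x := X n)) (h2.congr (fun k => ?_))
    simp only [Function.comp, mul_one, zero_add]
    exact hper' k n
  have h3 := hX 0
  rw [hl' (0 + 2), hl' (0 + 1), hl' 0] at h3
  rcases hroot l h3 with h | h
  · rw [hl' 0, h]
  · exfalso
    have := hnn 0
    rw [hl' 0, h] at this
    linarith

lemma periodic_nonpos {b c M T α : ℝ} (hb : 0 < b) (hc : c < -(1 - b) ^ 2) {p : ℕ}
    (hT : 0 < T)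
    (hroot : ∀ v : ℝ, v = v ^ 2 + c + b * v → (v = T ∨ v = α)) (X : ℕ → ℝ)
    (hX : ∀ n, X (n + 2) = X (n + 1) ^ 2 + c + b * X n) (hM : ∀ n, |X n| ≤ M)
    (hper : ∀ n, X (n + p) = X n) (hp : 0 < p) (hnn : ∀ n, X n ≤ 0) : X 0 = α := by
  have hper' : ∀ k n, X (n + k * p) = X n := by
    intro k n
    induction k with
    | zero => simp
    | succ k ih =>
      have e : n + (k + 1) * p = (n + k * p) + p := by ring
      rw [e, hper, ih]
  have h2p : ∀ n, X (n + 2) = X n := by
    intro n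
    obtain ⟨l, hl⟩ := conv_of_nonpos hb.le hX hM two_pos even_two (N := 0)
      (fun n _ => add_nonpos (hnn _) (hnn _)) n
    have h1 : ∀ j, X (n + j * 2) = l := by
      intro j
      have h1 : Tendsto (fun k : ℕ => j + k * p) atTop atTop :=
        tendsto_atTop_mono (fun k => by
          show k ≤ j + k * p
          nlinarith) tendsto_id
      have h2 := hl.comp h1
      refine tendsto_nhds_unique (tendsto_const_nhds (x := X (n + j * 2))) (h2.congr (fun k => ?_))
      simp only [Function.comp]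
      have e : n + (j + k * p) * 2 = n + j * 2 + (2 * k) * p := by ring
      rw [e]
      exact hper' (2 * k) _
    have := h1 0
    have h3 := h1 1
    simp only [zero_mul, add_zero, one_mul] at this h3
    rw [this, h3]
  have h0 := hX 0
  have h1 := hX 1
  rw [h2p 0] at h0
  rw [h2p 1] at h1
  simp only [zero_add] at h0
  rw [show (1 : ℕ) + 1 = 0 + 2 by norm_num, h2p 0] at h1
  have hfac : (X 0 - X 1) * (X 0 + X 1 + (1 - b)) = 0 := by linear_combination h0 - h1
  rcases mul_eq_zero.1 hfac with h | h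
  · have e : X 0 = X 1 := by linarith
    rw [← e] at h0
    rcases hroot _ h0 with h3 | h3
    · exfalso
      have := hnn 0
      rw [h3] at this
      linarith
    · exact h3
  · exfalso
    have hprod : X 0 * X 1 = (1 - b) ^ 2 + c := by
      linear_combination (1/2) * h0 + (1/2) * h1 + (1/2) * (X 0 + X 1 - 2 * (1 - b)) * h
    have := mul_nonneg_of_nonpos_of_nonpos (hnn 0) (hnn 1)
    linarith

/-- **Sign density.** -/
theorem result (a c : ℝ) (ha : a ≠ 0) (ha1 : |a| < 1) (z : ℝ × ℝ) (hz : NonStat (henon a c) z)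
    (p : ℕ) (hp : 0 < p) :
    (∃ δ : ℝ, 0 < δ ∧ ∃ᶠ n : ℕ in atTop, δ * n ≤
      Set.ncard {k | k < n ∧ ((henon a c)^[k + p] z).1 + ((henon a c)^[k] z).1 < 0}) ∧
    (Even p → ∃ δ : ℝ, 0 < δ ∧ ∃ᶠ n : ℕ in atTop, δ * n ≤
      Set.ncard {k | k < n ∧ 0 < ((henon a c)^[k + p] z).1 + ((henon a c)^[k] z).1}) := by
  have hb : 0 < a ^ 2 := by positivity
  have hb1 : a ^ 2 < 1 := by
    rw [← sq_abs]
    have := abs_nonneg a
    nlinarith
  have hc : c < -(5 / 4) * (1 - a ^ 2) ^ 2 := by
    by_contra h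
    push Not at h
    exact region_statistical' a c ha ha1 h z hz
  have hb2 : 0 < (1 - a ^ 2) ^ 2 := by
    have : 0 < 1 - a ^ 2 := by linarith
    positivity
  have hc0 : c < 0 := by linarith
  have hc1 : c < -(1 - a ^ 2) ^ 2 := by linarith
  obtain ⟨M, hM⟩ := hz.bounded
  have hx := xc_rec a c z
  obtain ⟨T, α, hT, hα, hroot⟩ := root_exists hb1 hc0
  refine ⟨?_, fun hev => ?_⟩
  · refine pos_of_not_avg0 (S := {k | xc a c z (k + p) + xc a c z k < 0}) (fun h => ?_)
    refine not_nonStat_of_far (A := T) (fun ε hε => ?_) hz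
    refine avg0_far (ω := 1) hb hb1 hx hM hp (Or.inl rfl) (one_pow p) ?_ ?_ hε
    · intro X h1 h2 h3 h4
      exact periodic_nonneg hb hb1 hα hroot X h1 h2 h3 hp (fun n => by simpa using h4 n)
    · simpa only [one_mul] using h
  · refine pos_of_not_avg0 (S := {k | 0 < xc a c z (k + p) + xc a c z k}) (fun h => ?_)
    refine not_nonStat_of_far (A := α) (fun ε hε => ?_) hz
    refine avg0_far (ω := -1) hb hb1 hx hM hp (Or.inr rfl) hev.neg_one_pow ?_ ?_ hε
    · intro X h1 h2 h3 h4
      exact periodic_nonpos hb hc1 hT hroot X h1 h2 h3 hp (fun n => by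
        have := h4 n
        linarith)
    · have e : {j | -1 * (xc a c z (j + p) + xc a c z j) < 0} =
          {k | 0 < xc a c z (k + p) + xc a c z k} := by
        ext j
        show -1 * (xc a c z (j + p) + xc a c z j) < 0 ↔ 0 < xc a c z (j + p) + xc a c z j
        constructor <;> intro h <;> linarith
      rw [e]
      exact h

end Pool.Agent.Results.MP_4785e6_an.SignDensity
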