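import Mathlib
import Pool.Agent.Run7.h964.Win3

set_option autoImplicit false

/-!
# Almost every bounded orbit visits an explicit critical strip in every linear window of times
-/

namespace Pool.Agent.Results.MP_4785e6_an.StripWindows

open Run7.h964 Filter Topology MeasureTheory Set

/-- every bounded forward orbit eventually satisfies `|x| < R'`, for every `R' > bigR a c` -/
noncomputable def bigR (a c : ℝ) : ℝ := ((1 + a ^ 2) + Real.sqrt ((1 + a ^ 2) ^ 2 - 4 * c)) / 2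

/-- an auxiliary radius -/
noncomputable def rad (a c : ℝ) : ℝ :=
  Real.sqrt (a ^ 2 + 4 / 3 * max 0 ((1 + a ^ 2) * bigR a c + c))

/-- the half-width of the critical strip -/
noncomputable def width (a c : ℝ) : ℝ :=
  min ((1 + a ^ 2) / 2) ((rad a c + a ^ 2 / rad a c) / 2)

lemma bigR_bound {a c R : ℝ} (h : bigR a c < R) :
    (1 + a ^ 2) / 2 ≤ R ∧ 0 < R ^ 2 - (1 + a ^ 2) * R + c := by
  unfold bigR at h
  have hs := Real.sqrt_nonneg ((1 + a ^ 2) ^ 2 - 4 * c)
  refine ⟨by linarith, ?_⟩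
  rcases le_or_gt 0 ((1 + a ^ 2) ^ 2 - 4 * c) with h1 | h1
  · have h2 := Real.sq_sqrt h1
    have h3 : Real.sqrt ((1 + a ^ 2) ^ 2 - 4 * c) < 2 * R - (1 + a ^ 2) := by linarith
    have h4 := pow_lt_pow_left₀ h3 hs two_ne_zero
    nlinarith
  · nlinarith [sq_nonneg (2 * R - (1 + a ^ 2))]

lemma strip_window_le {a c δ₁ : ℝ} (ha : a ≠ 0) (ha1 : |a| ≤ 1) (hδ : width a c < δ₁) :
    ∃ C : ℕ, ∀ᵐ z : ℝ × ℝ, (∃ M, ∀ n, |xc a c z n| ≤ M) →
      ∀ᶠ n in atTop, ∃ k, n ≤ k ∧ k ≤ C * n ∧ |xc a c z k| < δ₁ := by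
  have hb : 0 < a ^ 2 := by positivity
  have hb1 : a ^ 2 ≤ 1 := by rw [← sq_abs]; nlinarith [abs_nonneg a]
  rcases min_lt_iff.1 hδ with h | h
  · -- Euclidean metric
    have hm : Strip.Metric' (a ^ 2) c (((1 + a ^ 2) / 2 + δ₁) / 2) (2 + a ^ 2 + |c| + 1) 1 _ 1 1 id
        (fun _ => 1) := Strip.metric_id hb.le hb1 (by linarith)
    have hc := abs_nonneg c
    refine Strip.window ha hm (δ₁ := δ₁) (R₁ := 2 + a ^ 2 + |c|) (by linarith) (by linarith)
      (by linarith) ?_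
    rintro z ⟨M, hM⟩
    exact eventually_lt (sq_nonneg a) (xc_rec a c z) hM
  · -- arcsine metric
    set Δ := (1 + a ^ 2) * bigR a c + c with hΔ
    have hr2 : rad a c ^ 2 = a ^ 2 + 4 / 3 * max 0 Δ := by
      unfold rad
      rw [Real.sq_sqrt]
      have := le_max_left 0 Δ
      positivity
    have hmax0 := le_max_left 0 Δ
    have hmax1 := le_max_right 0 Δ
    have hr : 0 < rad a c := by
      unfold rad
      apply Real.sqrt_pos.2
      positivity
    set r := rad a c with hrdef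
    obtain ⟨r', hr', hδ'⟩ : ∃ r', r < r' ∧ (r' + a ^ 2 / r') / 2 < δ₁ := by
      refine ⟨r + (δ₁ - (r + a ^ 2 / r) / 2), by linarith, ?_⟩
      have h1 : a ^ 2 / (r + (δ₁ - (r + a ^ 2 / r) / 2)) ≤ a ^ 2 / r :=
        div_le_div_of_nonneg_left hb.le hr (by linarith)
      linarith
    have hr'0 : 0 < r' := by linarith
    set δ := (r' + a ^ 2 / r') / 2 with hδdef
    have hδ0 : 0 < δ := by positivity
    have hrb : a ^ 2 ≤ r' ^ 2 := by nlinarith
    have hq : δ ^ 2 + Δ < r' ^ 2 := by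
      have h1 : a ^ 2 / r' ≤ r' := by rw [div_le_iff₀ hr'0]; nlinarith
      have h2 : (a ^ 2 / r') * r' = a ^ 2 := by field_simp
      have h3 : 0 ≤ a ^ 2 / r' := by positivity
      have h4 : (a ^ 2 / r') ^ 2 ≤ a ^ 2 := by nlinarith
      have h5 : r ^ 2 < r' ^ 2 := by nlinarith
      rw [hδdef]
      nlinarith
    set g := r' ^ 2 - (δ ^ 2 + Δ) with hg
    have hg0 : 0 < g := by rw [hg]; linarith
    obtain ⟨η, hη0, hη⟩ : ∃ η : ℝ, 0 < η ∧ (1 + a ^ 2) * η ≤ g / 2 := by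
      refine ⟨g / (2 * (1 + a ^ 2)), by positivity, ?_⟩
      rw [mul_div_assoc', div_le_div_iff₀ (by positivity) (by norm_num)]
      nlinarith
    obtain ⟨t, ht0, ht1, ht⟩ : ∃ t : ℝ, 0 < t ∧ t ≤ 1 ∧ t * r' ^ 2 ≤ g / 2 := by
      refine ⟨min 1 (g / (2 * r' ^ 2)), lt_min one_pos (by positivity), min_le_left _ _, ?_⟩
      calc min 1 (g / (2 * r' ^ 2)) * r' ^ 2 ≤ (g / (2 * r' ^ 2)) * r' ^ 2 :=
            mul_le_mul_of_nonneg_right (min_le_right _ _) (by positivity)
        _ = g / 2 := by field_simp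
    set R₃ := bigR a c + η with hR3
    have hR0 : 0 < bigR a c := by
      unfold bigR
      have := Real.sqrt_nonneg ((1 + a ^ 2) ^ 2 - 4 * c)
      positivity
    have hlam2 : Real.sqrt (1 + t) ^ 2 = 1 + t := Real.sq_sqrt (by linarith)
    have hlam : 1 < Real.sqrt (1 + t) := by
      rw [Real.lt_sqrt (by norm_num)]; linarith
    have hB3 := bigR_bound (a := a) (c := c) (R := R₃) (by rw [hR3]; linarith)
    have hm := Strip.metric_arcsin (b := a ^ 2) (c := c) (δ := δ) (R := bigR a c + 2 * η / 3)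
      (R₃ := R₃) (r := r') (lam := Real.sqrt (1 + t)) hb.le hb1 hr'0 hrb (by rw [hδdef]; ring)
      hlam (by rw [hlam2]; linarith) (by linarith) (by rw [hR3]; linarith)
      hB3.2.le (by
        rw [hlam2]
        have h1 : δ ^ 2 + ((1 + a ^ 2) * R₃ + c) ≤ r' ^ 2 - g / 2 := by
          rw [hR3]
          have : (1 + a ^ 2) * (bigR a c + η) + c = Δ + (1 + a ^ 2) * η := by rw [hΔ]; ring
          rw [this]
          have e : r' ^ 2 = g + (δ ^ 2 + Δ) := by rw [hg]; ring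
          rw [e]; linarith
        calc (1 + t) * (δ ^ 2 + ((1 + a ^ 2) * R₃ + c)) ≤ (1 + t) * (r' ^ 2 - g / 2) :=
              mul_le_mul_of_nonneg_left h1 (by linarith)
          _ ≤ r' ^ 2 := by nlinarith)
    refine Strip.window ha hm (δ₁ := δ₁) (R₁ := bigR a c + η / 3) hδ' (by linarith)
      (by linarith) ?_
    rintro z ⟨M, hM⟩
    have hB1 := bigR_bound (a := a) (c := c) (R := bigR a c + η / 3) (by linarith)
    exact eventually_lt' (sq_nonneg a) (xc_rec a c z) hM hB1.1 hB1.2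

lemma strip_null_gt {a c : ℝ} (ha : 1 < |a|) :
    volume {z : ℝ × ℝ | ∃ M, ∀ n, |xc a c z n| ≤ M} = 0 := by
  have ha0 : a ≠ 0 := by rintro rfl; norm_num at ha
  have h1 : volume (trap a c) ≤ ENNReal.ofReal ((a ^ 2)⁻¹) * volume (trap a c) := by
    rw [← volume_preimage a c ha0]
    exact measure_mono (trap_sub a c)
  have h2 : volume (trap a c) = 0 := by
    by_contra hne
    have hlt : ENNReal.ofReal ((a ^ 2)⁻¹) < 1 := by
      rw [ENNReal.ofReal_lt_one]
      apply inv_lt_one_of_one_lt₀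
      rw [← sq_abs]
      nlinarith
    have h3 : ENNReal.ofReal ((a ^ 2)⁻¹) * volume (trap a c) < 1 * volume (trap a c) :=
      ENNReal.mul_lt_mul_left hne (trap_finite a c).ne hlt
    rw [one_mul] at h3
    exact absurd h1 (not_le.2 h3)
  have h3 : {z : ℝ × ℝ | ∃ M, ∀ n, |xc a c z n| ≤ M} ⊆
      ⋃ n : ℕ, (henon a c)^[n] ⁻¹' (trap a c) := by
    rintro z ⟨M, hM⟩
    obtain ⟨N, hN⟩ := enters_trap hM
    exact mem_iUnion.2 ⟨N, hN N le_rfl⟩
  refine measure_mono_null h3 ?_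
  rw [measure_iUnion_null_iff]
  intro n
  rw [volume_preimage_iter a c ha0, h2, mul_zero]

/-- **Linear windows.** Let `a ≠ 0`. Every non-statistical point of `H_{a,c}` has a bounded forward
orbit. For every `δ` above the explicit number `width a c` there is a constant `C δ` such that, for
Lebesgue almost every `z` whose forward orbit is bounded, the orbit visits the strip `|x| < δ` at
some time of every window `[n, C δ * n]` with `n` large. -/
theorem result (a c : ℝ) (ha : a ≠ 0) :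
    (∀ z, NonStat (henon a c) z → ∃ M, ∀ n, ‖(henon a c)^[n] z‖ ≤ M) ∧
    ∃ C : ℝ → ℕ, ∀ᵐ z : ℝ × ℝ, (∃ M, ∀ n, ‖(henon a c)^[n] z‖ ≤ M) →
      ∀ δ, width a c < δ → ∀ᶠ n in atTop, ∃ k, n ≤ k ∧ k ≤ C δ * n ∧
        |((henon a c)^[k] z).1| < δ := by
  have hbd : ∀ z : ℝ × ℝ, (∃ M, ∀ n, ‖(henon a c)^[n] z‖ ≤ M) → ∃ M, ∀ n, |xc a c z n| ≤ M := by
    rintro z ⟨M, hM⟩
    refine ⟨M, fun n => ?_⟩
    have h1 := norm_fst_le ((henon a c)^[n] z)
    rw [Real.norm_eq_abs] at h1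
    exact h1.trans (hM n)
  refine ⟨fun z hz => ?_, ?_⟩
  · obtain ⟨M, hM⟩ := NonStat.bounded hz
    exact iter_norm_le hM
  · rcases le_or_gt |a| 1 with h1 | h1
    · have h2 : ∀ q : ℚ, ∃ C : ℕ, width a c < q → ∀ᵐ z : ℝ × ℝ, (∃ M, ∀ n, |xc a c z n| ≤ M) →
          ∀ᶠ n in atTop, ∃ k, n ≤ k ∧ k ≤ C * n ∧ |xc a c z k| < q := by
        intro q
        by_cases hq : width a c < q
        · obtain ⟨C, hC⟩ := strip_window_le ha h1 hq
          exact ⟨C, fun _ => hC⟩
        · exact ⟨0, fun h => absurd h hq⟩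
      choose C₀ hC₀ using h2
      have h3 : ∀ δ : ℝ, ∃ q : ℚ, width a c < δ → width a c < q ∧ (q : ℝ) < δ := by
        intro δ
        by_cases hδ : width a c < δ
        · obtain ⟨q, hq1, hq2⟩ := exists_rat_btwn hδ
          exact ⟨q, fun _ => ⟨hq1, hq2⟩⟩
        · exact ⟨0, fun h => absurd h hδ⟩
      choose Q hQ using h3
      refine ⟨fun δ => C₀ (Q δ), ?_⟩
      have h4 : ∀ᵐ z : ℝ × ℝ, ∀ q : ℚ, width a c < q → (∃ M, ∀ n, |xc a c z n| ≤ M) →
          ∀ᶠ n in atTop, ∃ k, n ≤ k ∧ k ≤ C₀ q * n ∧ |xc a c z k| < q := by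
        rw [ae_all_iff]
        intro q
        by_cases hq : width a c < q
        · filter_upwards [hC₀ q hq] with z hz _
          exact hz
        · filter_upwards with z hz
          exact absurd hz hq
      filter_upwards [h4] with z hz hzb δ hδ
      obtain ⟨hq1, hq2⟩ := hQ δ hδ
      filter_upwards [hz (Q δ) hq1 (hbd z hzb)] with n hn
      obtain ⟨k, hk1, hk2, hk3⟩ := hn
      exact ⟨k, hk1, hk2, hk3.trans hq2⟩
    · refine ⟨fun _ => 0, ?_⟩
      have h2 := strip_null_gt (a := a) (c := c) h1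
      rw [measure_eq_zero_iff_ae_notMem] at h2
      filter_upwards [h2] with z hz hz'
      exact absurd (hbd z hz') hz

end Pool.Agent.Results.MP_4785e6_an.StripWindows
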