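import Mathlib
import Pool.Agent.Run7.h964.Growth2

set_option autoImplicit false

/-!
# Zero-infinity law for the set of non-statistical points of a quadratic Hénon map
-/

namespace Pool.Agent.Results.MP_4785e6_an.ZeroInfinity

open Run7.h964 MeasureTheory Filter Topology Set
open scoped ENNReal

/-- the parameter space `(ℝ \ {0}) × ℝ` of the quadratic Hénon family -/
abbrev Param : Type := {p : ℝ × ℝ // p.1 ≠ 0}

/-- a set of parameters is locally dense if its closure in parameter space has non-empty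
interior -/
def LocallyDense (E : Set Param) : Prop := (interior (closure E)).Nonempty

/-- the property asked for in Q1, with the lower bound `ε` on the Lebesgue measure -/
def Q1With (ε : ℝ≥0∞) : Prop :=
  ∃ E : Set Param, LocallyDense E ∧ ∀ p ∈ E, ∃ A : Set (ℝ × ℝ), MeasurableSet A ∧
    ε ≤ volume A ∧ ∀ z ∈ A, NonStat (henon p.1.1 p.1.2) z

theorem result :
    (∀ a c : ℝ, a ≠ 0 →
      volume {z : ℝ × ℝ | NonStat (henon a c) z} = 0 ∨
      (|a| < 1 ∧ ∃ k K ρ₀ : ℝ, 0 < k ∧ 0 < K ∧ 1 < ρ₀ ∧ ∀ ρ : ℝ, ρ₀ ≤ ρ →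
        ENNReal.ofReal (k * Real.log ρ ^ Real.logb 2 (a ^ 2)⁻¹) ≤
            volume ({z : ℝ × ℝ | NonStat (henon a c) z} ∩ Metric.closedBall 0 ρ) ∧
          volume ({z : ℝ × ℝ | NonStat (henon a c) z} ∩ Metric.closedBall 0 ρ) ≤
            ENNReal.ofReal (K * Real.log ρ ^ Real.logb 2 (a ^ 2)⁻¹))) ∧
    (∀ ε : ℝ≥0∞, 0 < ε → (Q1With ε ↔ Q1With ⊤)) := by
  constructor
  · intro a c ha
    rcases zero_or_top a c ha with h | ⟨h1, h2⟩
    · exact Or.inl h
    · refine Or.inr ⟨h1, ?_⟩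
      have hne : volume (nonStatSet a c) ≠ 0 := by rw [h2]; exact ENNReal.top_ne_zero
      obtain ⟨K, hK, hup⟩ := growth_upper a c ha h1
      obtain ⟨k, ρ₀, hk, hρ₀, hlow⟩ := growth_lower a c ha h1 hne
      refine ⟨k, K, max ρ₀ (Real.exp 1), hk, hK, lt_max_of_lt_left hρ₀, fun ρ hρ => ⟨?_, ?_⟩⟩
      · exact hlow ρ ((le_max_left _ _).trans hρ)
      · exact hup ρ ((le_max_right _ _).trans hρ)
  · intro ε hε
    constructor
    · rintro ⟨E, hE, h⟩
      refine ⟨E, hE, fun p hp => ?_⟩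
      obtain ⟨A, -, hA, hA'⟩ := h p hp
      refine ⟨nonStatSet p.1.1 p.1.2, nonStatSet_measurable _ _, ?_, fun z hz => hz⟩
      rcases zero_or_top p.1.1 p.1.2 p.2 with h0 | ⟨-, h0⟩
      · exfalso
        have h1 : volume A ≤ volume (nonStatSet p.1.1 p.1.2) := measure_mono hA'
        rw [h0] at h1
        exact absurd (hA.trans h1) (not_le.2 hε)
      · exact h0.ge
    · rintro ⟨E, hE, h⟩
      refine ⟨E, hE, fun p hp => ?_⟩
      obtain ⟨A, hm, hA, hA'⟩ := h p hp
      exact ⟨A, hm, le_top.trans hA, hA'⟩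

end Pool.Agent.Results.MP_4785e6_an.ZeroInfinity
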